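import Pool.Agent.Work.MP_46fa68_20.AsmDefs

/-!
# MP_46fa68_co: the assembly
-/

set_option autoImplicit false

open Finset Filter Topology

namespace Pool.JM

/-! ### the kernel beyond the wall -/

theorem kf_beyond {M0 t : ℕ} {v : ℕ → ℝ} {x : ℕ} (hx : M0 ≤ x) (p : ℕ) :
    kf M0 v (bi t) x p = if p = 0 then 1 else 0 := by
  have h1 : kx M0 v (bi t) x p = 0 := by
    unfold kx
    rw [if_neg (by omega)]
  have h2 : kc M0 (bi t) x p = if p = 0 then 1 else 0 := by
    unfold kc kp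
    by_cases hp : p = 0
    · subst hp
      rw [if_pos rfl, if_pos hx, if_pos rfl]
      simp [bi]
    · rw [if_neg hp, if_neg (by omega), if_neg hp, mul_zero]
  unfold kf
  rw [h1, h2, add_zero]

theorem kz_beyond {M m t A : ℕ} {g1 g2 : ℝ} {x : ℕ} (hx : M + m ≤ x) (p : ℕ) :
    kz M m t A g1 g2 x p = if p = 0 then 1 else 0 := by
  unfold kz cut
  rw [kf_beyond hx]
  by_cases hp : p = 0
  · subst hp
    simp
  · rw [if_neg hp]
    simp

theorem Rr_zero' {B : Finset ℕ} {x : ℕ} : Rr B x 0 = 1 := by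
  unfold Rr
  have h1 : ∏ y ∈ B.erase x, (((x : ℝ) + (0 : ℕ) - y) / ((x : ℝ) - y)) = 1 := by
    refine prod_eq_one fun y hy => ?_
    have : (x : ℝ) - y ≠ 0 := by
      rw [sub_ne_zero]
      exact_mod_cast (ne_of_mem_erase hy).symm
    rw [Nat.cast_zero, add_zero, div_self this]
  rw [h1, one_mul, add_zero]
  exact div_self (by exact_mod_cast x.factorial_ne_zero)

theorem rw1_beyond {M m t A : ℕ} {g1 g2 : ℝ} {B : Finset ℕ} (h : M + m ≤ tb B) :
    rw1 M m t A g1 g2 B = 1 := by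
  unfold rw1
  rw [sum_eq_single 0]
  · rw [kz_beyond h, if_pos rfl, one_mul, Rr_zero']
  · intro p _ hp
    rw [kz_beyond h, if_neg hp, zero_mul]
  · intro h
    exact absurd (mem_range.2 (Nat.succ_pos A)) h

theorem tb_mem {B : Finset ℕ} (hB : B.Nonempty) : tb B ∈ B := by
  obtain ⟨x, C, rfl, h⟩ := exists_top hB
  rw [tb_insert h]
  exact mem_insert_self _ _

theorem E1_split {M m t A : ℕ} {g1 g2 : ℝ} {B : Finset ℕ} (hc : B.card = M + 1) :
    E1 (M + 1) (A + t + 1) (kz M m t A g1 g2) B = rw1 M m t A g1 g2 B + rw2 M m t A g1 g2 B := by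
  have hB : B.Nonempty := card_pos.1 (by omega)
  rw [E1_eq _ hc, ← add_sum_erase B _ (tb_mem hB)]
  have h1 : ∀ x, ∑ p ∈ range (A + t + 1), kz M m t A g1 g2 x p * Rr B x p =
      ∑ p ∈ range (A + 1), kz M m t A g1 g2 x p * Rr B x p := by
    intro x
    symm
    refine sum_subset (fun p hp => mem_range.2 (by have := mem_range.1 hp; omega)) fun p _ hp => ?_
    have hp' : ¬ p ≤ A := by
      rw [mem_range] at hp
      omega
    unfold kz cut
    rw [if_neg hp', zero_mul]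
  rw [h1, sum_congr rfl fun x _ => h1 x]
  rfl

/-! ### the support of the kernel -/

theorem kz_sup {M m t A : ℕ} (g1 g2 : ℝ) (_h : A + t + m ≤ M) :
    Sup (kz M m t A g1 g2) (M + m - 1 - A) (A + 1) := by
  refine Sup_cut (M0 := M + m) fun x p hx hp => ?_
  have h1 : kx (M + m) (vv t g1 g2) (bi t) x p = 0 := kx_zero (by omega)
  have h2 : kc (M + m) (bi t) x p = 0 := by
    unfold kc kp
    by_cases hp0 : p = 0
    · subst hp0
      rw [if_pos rfl, if_neg (by omega), mul_zero]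
    · rw [if_neg hp0, if_pos (by omega), Nat.choose_eq_zero_of_lt (by omega)]
      simp
  unfold kf
  rw [h1, h2, add_zero]

/-! ### restriction and raising -/

theorem Dli_mul (u : Finset ℕ → ℝ) : ∀ (j : ℕ) (B : Finset ℕ),
    Dl^[j] (fun C => ex C * u C) B = ex B * Dopi j u B
  | 0, _ => rfl
  | j + 1, B => by
    rw [Function.iterate_succ_apply']
    have e : Dopi (j + 1) u B = Dop (Dopi j u) B := rfl
    rw [e]
    change ∑ x ∈ ad B, Dl^[j] (fun C => ex C * u C) (mv B x) =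
      ex B * ∑ x ∈ ad B, w B x * Dopi j u (mv B x)
    rw [mul_sum]
    refine sum_congr rfl fun x hx => ?_
    rw [Dli_mul u j, ex_mv hx]
    ring

/-- **From `z` to the function on the top level, with a defect.** -/
theorem top_of_z' {m t K : ℕ} (hm : 2 ≤ m) (hK : m + t < K) (z : Finset ℕ → ℝ)
    (hz1 : ∀ B ∈ Lv K (m + t), ¬ Bl m K B → B ≠ Rw K (m + t) → z B = ex B) :
    ∀ B ∈ Lv K m, Bl m K B →
      Dwi (K + m - 2) t (fun B => 1 - z B / ex B) B = 1 - Dl^[t] z B / ex B := by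
  classical
  intro B hB hb
  have hne : B ≠ Rw K m := by
    rintro rfl
    exact not_Bl_Rw le_rfl hb
  set y : Finset ℕ → ℝ := fun B => if Bl m K B then ex B - z B else 0 with hy
  have h1 := (Dli_eq_Dwi (m := m) (K := K) (by omega) hm (fun B => 1 - z B / ex B) t m y
    (fun B _ hb => by rw [hy]; simp only; rw [if_neg hb])
    (fun B _ hb => by
      rw [hy]
      simp only
      rw [if_pos hb, mul_sub, mul_one, mul_div_cancel₀ _ (ex_pos B).ne'])).2 B hB hb
  have h2 : Dl^[t] y B = Dl^[t] (fun C => ex C + (-1) * z C) B := by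
    refine Dli_congr_Rw (by omega) t m (fun C hC hne => ?_) hB hne
    rw [hy]
    simp only
    split_ifs with hb
    · ring
    · rw [hz1 C hC hb hne]
      ring
  have hadd : ∀ (j : ℕ) (f g : Finset ℕ → ℝ) (B : Finset ℕ),
      Dl^[j] (fun C => f C + (-1) * g C) B = Dl^[j] f B + (-1) * Dl^[j] g B := by
    intro j f g
    induction j with
    | zero => exact fun B => rfl
    | succ j ih =>
      intro B
      rw [Function.iterate_succ_apply', Function.iterate_succ_apply', Function.iterate_succ_apply']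
      unfold Dl
      rw [mul_sum, ← sum_add_distrib]
      exact sum_congr rfl fun x _ => ih _
  have hex : ∀ (j n : ℕ), n + j < K → ∀ B ∈ Lv K n, Dl^[j] ex B = ex B := by
    intro j
    induction j with
    | zero => exact fun n _ B _ => rfl
    | succ j ih =>
      intro n hn B hB
      rw [Function.iterate_succ_apply']
      have e1 : Dl (Dl^[j] ex) B = Dl ex B := Dl_congr (fun C hC => ih (n + 1) (by omega) C hC) hB
      rw [e1, Dl_ex (Lv_zero_mem hB (by omega))]
  rw [h2, hadd, hex t m hK B hB] at h1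
  have h3 := ex_pos B
  have h4 : ex B * Dwi (K + m - 2) t (fun B => 1 - z B / ex B) B =
      ex B * (1 - Dl^[t] z B / ex B) := by
    rw [← h1, mul_sub, mul_one, mul_div_cancel₀ _ h3.ne']
    ring
  exact mul_left_cancel₀ h3.ne' h4

/-! ### the constant `q` -/

theorem tendsto_q (N t : ℕ) : Tendsto (fun M : ℕ => (1 + (N : ℝ) / M) ^ N / (1 - (t : ℝ) / M) ^ t)
    atTop (𝓝 1) := by
  have h1 : Tendsto (fun M : ℕ => (N : ℝ) / (M : ℝ)) atTop (𝓝 0) :=
    tendsto_const_div_atTop_nhds_zero_nat _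
  have h2 : Tendsto (fun M : ℕ => (t : ℝ) / (M : ℝ)) atTop (𝓝 0) :=
    tendsto_const_div_atTop_nhds_zero_nat _
  have h3 : Tendsto (fun M : ℕ => (1 + (N : ℝ) / M) ^ N) atTop (𝓝 ((1 + 0) ^ N)) :=
    (h1.const_add 1).pow N
  have h4 : Tendsto (fun M : ℕ => (1 - (t : ℝ) / M) ^ t) atTop (𝓝 ((1 - 0) ^ t)) :=
    (h2.const_sub 1).pow t
  have h5 := h3.div h4 (by norm_num)
  rw [add_zero, sub_zero, one_pow, one_pow, div_one] at h5
  exact h5

theorem eventually_q (N t : ℕ) {ν η : ℝ} (_hν : 0 ≤ ν) (hν1 : ν < 1) (hη : 0 < η) :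
    ∃ M₀ : ℕ, ∀ M, M₀ ≤ M → ∀ q : ℝ, q = (1 + (N : ℝ) / M) ^ N / (1 - (t : ℝ) / M) ^ t →
      q * ν < 1 ∧ q / (1 - q * ν) * (1 - ν) ≤ 1 + η := by
  have h1 := tendsto_q N t
  have h2 : Tendsto (fun M : ℕ => (1 + (N : ℝ) / M) ^ N / (1 - (t : ℝ) / M) ^ t * ν) atTop
      (𝓝 (1 * ν)) := h1.mul_const ν
  rw [one_mul] at h2
  have h3 : Tendsto (fun M : ℕ => (1 + (N : ℝ) / M) ^ N / (1 - (t : ℝ) / M) ^ t /
      (1 - (1 + (N : ℝ) / M) ^ N / (1 - (t : ℝ) / M) ^ t * ν) * (1 - ν)) atTop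
      (𝓝 (1 / (1 - ν) * (1 - ν))) :=
    (h1.div (h2.const_sub 1) (by linarith)).mul_const (1 - ν)
  rw [one_div, inv_mul_cancel₀ (by linarith)] at h3
  have e1 := h2.eventually_lt_const hν1
  have e2 := h3.eventually_lt_const (by linarith : (1 : ℝ) < 1 + η)
  obtain ⟨M₀, hM₀⟩ := eventually_atTop.1 (e1.and e2)
  refine ⟨M₀, fun M hM q hq => ?_⟩
  obtain ⟨h4, h5⟩ := hM₀ M hM
  rw [hq]
  exact ⟨h4, h5.le⟩

/-! ### the assembly -/

/-- the assembly for fixed `A` and `M` -/
theorem thr_fixed {m t A M : ℕ} {g1 g2 ν marg Vm ε η Wt Ct q : ℝ} {W' : ℕ → Finset ℕ → ℝ}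
    {Vh' : Finset ℕ → ℝ} (hm : 4 ≤ m) (ht : t = m - 3)
    (hWt : Wt = 1 + (((m + t : ℕ) : ℝ) - 1) / ((m : ℝ) - 1))
    (hCt : Ct = (m + t).choose t * Wt ^ t * (1 + Wt) ^ m) (hCt0 : 0 ≤ Ct)
    (hε : ε = marg / (3 * (Ct + 1))) (hε0 : 0 < ε) (hη : η = marg / (3 * (Vm + 1))) (hη0 : 0 < η)
    (hν0 : 0 ≤ ν) (hν1 : ν < 1) (hmarg : 0 < marg) (hVm : 0 ≤ Vm) (hA0 : 1 ≤ A) (hAM : A + t + m ≤ M)
    (hq : q = (1 + ((m + t : ℕ) : ℝ) / M) ^ (m + t) / (1 - (t : ℝ) / M) ^ t) (hq1 : q * ν < 1)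
    (hq2 : q / (1 - q * ν) * (1 - ν) ≤ 1 + η)
    (hW1 : ∀ i, 1 ≤ i → i ≤ t → ∀ C ∈ Lv M i, 0 < W' i C) (hW2 : W' 0 (range M) = W0 M t W')
    (hTL' : ∀ B ∈ Lv (M + 1) m, Bl m (M + 1) B →
      |E1 (M + 1) (A + t + 1) (pk^[t] (kz M m t A g1 g2)) B| ≤ ε)
    (hU0' : ∀ B ∈ Lv (M + 1) (m + t), Bl m (M + 1) B →
      Vh' B + marg ≤ 1 - rw1 M m t A g1 g2 B - rw2 M m t A g1 g2 B)
    (hBD' : ∀ i, 1 ≤ i → i ≤ t → ∀ C ∈ Lv M i,
      |rw2 M m t A g1 g2 (insert (m + t + M - i) C)| * ex (insert (m + t + M - i) C) ≤ W' i C)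
    (hNU' : ∀ i, 1 ≤ i → i ≤ t → ∀ C ∈ Lv M i,
      ∑ x ∈ C, YR t W' (m + t + M - x) ((insert (m + t + M - i) C).erase x) ≤ ν * W' i C)
    (hVH' : ∀ B ∈ Lv (M + 1) (m + t), Bl m (M + 1) B →
      Vh' B ≤ Vm ∧ ∑ x ∈ B, YR t W' (m + t + M - x) (B.erase x) ≤ (1 - ν) * Vh' B * ex B) :
    Threshold m := by
  -- the one-body function
  set u1 : Finset ℕ → ℝ := E1 (M + 1) (A + t + 1) (kz M m t A g1 g2) with hu1
  -- the lift
  obtain ⟨v, hv1, hv2, hv3⟩ := blk_LIFTX' M m t W' ν q (fun B => ex B - ex B * u1 B)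
    (by omega) (by omega) hν0 hq hq1 hW1 hW2 hNU' (by
      intro i hi1 hi2 C hC
      have hlt : ∀ y ∈ C, y < m + t + M - i := by
        intro y hy
        have := (Lv_spec hC).2.2.1 y hy
        omega
      have hcard : (insert (m + t + M - i) C).card = M + 1 := by
        rw [card_insert_of_notMem fun h => lt_irrefl _ (hlt _ h), (Lv_spec hC).1]
      have h1 := E1_split (M := M) (m := m) (t := t) (A := A) (g1 := g1) (g2 := g2) hcard
      rw [rw1_beyond (by rw [tb_insert hlt]; omega)] at h1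
      rw [hu1, h1]
      rw [show ex (insert (m + t + M - i) C) - ex (insert (m + t + M - i) C) *
        (1 + rw2 M m t A g1 g2 (insert (m + t + M - i) C)) =
        -(rw2 M m t A g1 g2 (insert (m + t + M - i) C) * ex (insert (m + t + M - i) C)) by ring,
        abs_neg, abs_mul, abs_of_pos (ex_pos _)]
      exact hBD' i hi1 hi2 C hC)
  set z : Finset ℕ → ℝ := fun B => ex B * u1 B + v B with hz
  have hz1 : ∀ B ∈ Lv (M + 1) (m + t), ¬ Bl m (M + 1) B → B ≠ Rw (M + 1) (m + t) → z B = ex B := by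
    intro B hB hb hne
    rw [hz]
    simp only
    rw [hv1 B hB hb hne]
    ring
  have hDz : ∀ B ∈ Lv (M + 1) m, Dl^[t] z B =
      ex B * E1 (M + 1) (A + t + 1) (pk^[t] (kz M m t A g1 g2)) B := by
    intro B hB
    have hadd : ∀ (j : ℕ) (f g : Finset ℕ → ℝ) (B : Finset ℕ),
        Dl^[j] (fun C => f C + g C) B = Dl^[j] f B + Dl^[j] g B := by
      intro j f g
      induction j with
      | zero => exact fun B => rfl
      | succ j ih =>
        intro B
        rw [Function.iterate_succ_apply', Function.iterate_succ_apply',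
          Function.iterate_succ_apply']
        unfold Dl
        rw [← sum_add_distrib]
        exact sum_congr rfl fun x _ => ih _
    rw [hz, hadd, hv3 B hB, add_zero, Dli_mul, hu1,
      Dopi_E1 (kz_sup g1 g2 hAM) t m (by omega) (by omega) (by omega) B hB]
  have hD : ∀ B ∈ Lv (M + 1) m, Bl m (M + 1) B →
      Dwi (M + 1 + m - 2) t (fun B => 1 - z B / ex B) B +
        E1 (M + 1) (A + t + 1) (pk^[t] (kz M m t A g1 g2)) B = 1 := by
    intro B hB hb
    rw [top_of_z' (by omega) (by omega) z hz1 B hB hb, hDz B hB, mul_div_cancel_left₀ _ (ex_pos B).ne']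
    ring
  obtain ⟨u, hu2, hu3⟩ := exists_top_H (m := m) (t := t) (K := M + 1) (by omega) (by omega)
    (fun B => 1 - z B / ex B) (fun B => E1 (M + 1) (A + t + 1) (pk^[t] (kz M m t A g1 g2)) B)
    hε0.le hD hTL' hWt
  refine ⟨M + 1, u, by omega, by rw [← ht]; exact hu2, ?_⟩
  rw [← ht]
  intro B hB hb
  have h1 := hu3 B hB hb
  rw [← hCt] at h1
  have h2 : Ct * ε ≤ marg / 3 := by
    rw [hε, ← mul_div_assoc, div_le_div_iff₀ (by positivity) (by norm_num)]
    nlinarith
  have h3 := hU0' B hB hb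
  obtain ⟨h4, h5⟩ := hVH' B hB hb
  have h6 := hv2 B hB hb
  have hexB := ex_pos B
  have hfac : 0 ≤ q / (1 - q * ν) := by
    have : 0 ≤ q := by
      rw [hq]
      refine div_nonneg (by positivity) (pow_nonneg ?_ _)
      rw [sub_nonneg, div_le_one (by exact_mod_cast (by omega : 0 < M))]
      exact_mod_cast (by omega : t ≤ M)
    exact div_nonneg this (by linarith)
  have hYR : 0 ≤ ∑ x ∈ B, YR t W' (m + t + M - x) (B.erase x) ∨
      ∑ x ∈ B, YR t W' (m + t + M - x) (B.erase x) < 0 := le_or_gt _ _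
  have h7 : |v B| ≤ (Vh' B + marg / 3) * ex B := by
    rcases hYR with hY | hY
    · have hVh : 0 ≤ Vh' B := by
        by_contra hcon
        push Not at hcon
        have : (1 - ν) * Vh' B * ex B < 0 :=
          mul_neg_of_neg_of_pos (mul_neg_of_pos_of_neg (by linarith) hcon) hexB
        linarith
      calc |v B| ≤ q / (1 - q * ν) * ((1 - ν) * Vh' B * ex B) :=
            h6.trans (mul_le_mul_of_nonneg_left h5 hfac)
        _ = (q / (1 - q * ν) * (1 - ν)) * (Vh' B * ex B) := by ring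
        _ ≤ (1 + η) * (Vh' B * ex B) :=
            mul_le_mul_of_nonneg_right hq2 (mul_nonneg hVh hexB.le)
        _ = (Vh' B + η * Vh' B) * ex B := by ring
        _ ≤ (Vh' B + marg / 3) * ex B := by
            refine mul_le_mul_of_nonneg_right ?_ hexB.le
            have h8 : η * Vh' B ≤ η * Vm := mul_le_mul_of_nonneg_left h4 hη0.le
            have h9 : η * Vm ≤ marg / 3 := by
              rw [hη, div_mul_eq_mul_div, div_le_div_iff₀ (by positivity) (by norm_num)]
              nlinarith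
            linarith
    · -- impossible unless `v B = 0`; then the claim needs `0 ≤ Vh + marg / 3`
      exfalso
      have h8 : |v B| ≤ 0 := h6.trans (mul_nonpos_of_nonneg_of_nonpos hfac hY.le)
      have hW0 : ∀ i ≤ t, ∀ C ∈ Lv M i, 0 ≤ W' i C := by
        intro i hi C hC
        rcases Nat.eq_zero_or_pos i with h0 | h0
        · subst h0
          have hC' : C = range M := by simpa [Lv] using hC
          rw [hC', hW2]
          unfold W0
          refine sum_nonneg fun j hj => mul_nonneg (Nat.cast_nonneg _) ?_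
          have hnn : ∀ (k n : ℕ) (f : Finset ℕ → ℝ), (∀ C ∈ Lv M (n + k), 0 ≤ f C) →
              ∀ C ∈ Lv M n, 0 ≤ Dl^[k] f C := by
            intro k
            induction k with
            | zero => exact fun n f h C hC => h C hC
            | succ k ih =>
              intro n f h C hC
              rw [Function.iterate_succ_apply']
              unfold Dl
              refine sum_nonneg fun x hx => ih (n + 1) f ?_ _ (mv_mem hC hx)
              rwa [show n + 1 + k = n + (k + 1) by omega]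
          refine hnn (j + 1) 0 (W' (j + 1)) (fun C hC => ?_) (range M) (by simp [Lv])
          rw [zero_add] at hC
          have := mem_range.1 hj
          exact (hW1 (j + 1) (by omega) (by omega) C hC).le
        · exact (hW1 i h0 hi C hC).le
      have h9 : 0 ≤ ∑ x ∈ B, YR t W' (m + t + M - x) (B.erase x) := by
        refine sum_nonneg fun x hx => ?_
        unfold YR
        refine sum_nonneg fun i hi => ?_
        split_ifs with hl
        · refine mul_nonneg (abs_nonneg _) ?_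
          have hi' : i ≤ t := by
            have := mem_range.1 hi
            omega
          have hEr : B.erase x ∈ Lv M (i + (m + t + M - x - i)) := by
            have hsp := mem_Lv_iff.1 hB
            have hx3 := (Lv_spec hB).2.2.1 x hx
            rw [mem_Lv_iff]
            refine ⟨by rw [card_erase_of_mem hx, hsp.1]; rfl, ?_⟩
            have h10 := add_sum_erase B (fun z => z) hx
            rw [hsp.2, sum_range_succ] at h10
            omega
          exact Foi_nonneg (M := M) (i := i) (fun _ => zero_le_one) (hW0 i hi')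
            (m + t + M - x - i) _ hEr
        · exact le_rfl
      linarith
  have h10 : u B ≥ 1 - z B / ex B - marg / 3 := by
    have := (abs_le.1 (h1.trans h2)).1
    linarith
  have h11 : z B / ex B = u1 B + v B / ex B := by
    rw [hz]
    simp only
    rw [add_div, mul_div_cancel_left₀ _ hexB.ne']
  have h12 : v B / ex B ≤ Vh' B + marg / 3 := by
    rw [div_le_iff₀ hexB]
    exact (le_abs_self _).trans h7
  have h13 : u1 B = rw1 M m t A g1 g2 B + rw2 M m t A g1 g2 B := E1_split (Lv_spec hB).1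
  rw [h11, h13] at h10
  linarith

theorem blk_THR : Stmt_THR := by
  intro m g1 g2 ν marg Vm W Vh hm hν0 hν1 hmarg hVm hWP hTAIL hU0 hBD hNU hVH
  obtain ⟨t, ht⟩ : ∃ t, t = m - 3 := ⟨_, rfl⟩
  rw [← ht] at hWP hTAIL hU0 hBD hNU hVH
  -- the norm of the repair
  obtain ⟨Wt, hWt⟩ : ∃ Wt : ℝ, Wt = 1 + (((m + t : ℕ) : ℝ) - 1) / ((m : ℝ) - 1) := ⟨_, rfl⟩
  obtain ⟨Ct, hCt⟩ : ∃ Ct : ℝ, Ct = (m + t).choose t * Wt ^ t * (1 + Wt) ^ m := ⟨_, rfl⟩
  have hWt0 : 0 ≤ Wt := by
    rw [hWt]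
    have h1 : (1 : ℝ) ≤ m := by exact_mod_cast (by omega : 1 ≤ m)
    have h2 : (1 : ℝ) ≤ ((m + t : ℕ) : ℝ) := by exact_mod_cast (by omega : 1 ≤ m + t)
    have : 0 ≤ (((m + t : ℕ) : ℝ) - 1) / ((m : ℝ) - 1) := div_nonneg (by linarith) (by linarith)
    linarith
  have hCt0 : 0 ≤ Ct := by
    rw [hCt]
    positivity
  obtain ⟨ε, hε⟩ : ∃ ε : ℝ, ε = marg / (3 * (Ct + 1)) := ⟨_, rfl⟩
  have hε0 : 0 < ε := by
    rw [hε]
    positivity
  obtain ⟨η, hη⟩ : ∃ η : ℝ, η = marg / (3 * (Vm + 1)) := ⟨_, rfl⟩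
  have hη0 : 0 < η := by
    rw [hη]
    positivity
  obtain ⟨A1, hA1⟩ := hTAIL ε hε0
  obtain ⟨A2, hA2⟩ := hU0
  obtain ⟨A3, hA3⟩ := hBD
  obtain ⟨M1, hM1⟩ := hWP
  obtain ⟨M2, hM2⟩ := hNU
  obtain ⟨M3, hM3⟩ := hVH
  obtain ⟨M4, hM4⟩ := eventually_q (m + t) t hν0 hν1 hη0
  obtain ⟨A, hA⟩ : ∃ A, A = A1 + A2 + A3 + 1 := ⟨_, rfl⟩
  obtain ⟨M, hM⟩ : ∃ M, M = A + t + m + M1 + M2 + M3 + M4 + 1 := ⟨_, rfl⟩
  have hAM : A + t + m ≤ M := by omega
  obtain ⟨hW1, hW2⟩ := hM1 M (by omega)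
  obtain ⟨hq1, hq2⟩ := hM4 M (by omega) _ rfl
  exact thr_fixed hm ht hWt hCt hCt0 hε hε0 hη hη0 hν0 hν1 hmarg hVm (by omega) hAM rfl hq1 hq2 hW1 hW2
    (hA1 A (by omega) M hAM) (hA2 A (by omega) M hAM) (hA3 A (by omega) M hAM)
    (hM2 M (by omega)) (hM3 M (by omega))

end Pool.JM
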