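import Pool.Agent.Work.MP_46fa68_31.FIXX
import Pool.Agent.Work.MP_46fa68_h4.Layer
import Pool.Agent.Work.MP_46fa68_85.Reduce
import Pool.Agent.Work.MP_46fa68_T.Near2

/-!
# MP_46fa68_co: the assembly (interface)

`M` inner beads, `K = M + 1` beads, `N = m + t` boxes, wall `M0 = K - 1 + m = M + m`; `A` = truncation of
the displacement.  `kz` is the kernel of helper4; `rw1`, `rw2` are the parts of the one-body function
`E1 kz` of the top bead and of the other beads.  `W M i C` is the majorant of the boundary defect,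
`Vh M B` the bound of the lift relative to `ex`.
-/

set_option autoImplicit false

open Finset

namespace Pool.JM

/-- the truncated kernel -/
noncomputable def kz (M m t A : ℕ) (g1 g2 : ℝ) : ℕ → ℕ → ℝ :=
  cut A (kf (M + m) (vv t g1 g2) (bi t))

/-- the part of the top bead (row 1) -/
noncomputable def rw1 (M m t A : ℕ) (g1 g2 : ℝ) (B : Finset ℕ) : ℝ :=
  ∑ p ∈ range (A + 1), kz M m t A g1 g2 (tb B) p * Rr B (tb B) p

/-- the part of the other beads (rows `≥ 2`) -/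
noncomputable def rw2 (M m t A : ℕ) (g1 g2 : ℝ) (B : Finset ℕ) : ℝ :=
  ∑ x ∈ B.erase (tb B), ∑ p ∈ range (A + 1), kz M m t A g1 g2 x p * Rr B x p

/-- **TAIL** (helper4): the function `ex * E1 kz` is exact in the interior up to the truncation; this
contains the condition at the shape `(m - 1, 1)`. -/
def Stmt_TAIL (m t : ℕ) (g1 g2 : ℝ) : Prop := ∀ ε : ℝ, 0 < ε → ∃ A₀ : ℕ, ∀ A, A₀ ≤ A →
  ∀ M, A + t + m ≤ M → ∀ B ∈ Lv (M + 1) m, Bl m (M + 1) B →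
    |E1 (M + 1) (A + t + 1) (pk^[t] (kz M m t A g1 g2)) B| ≤ ε

/-- **U0** (helper4: row 1, helper5: rows `≥ 2`): below the wall. -/
def Stmt_U0 (m t : ℕ) (g1 g2 marg : ℝ) (Vh : ℕ → Finset ℕ → ℝ) : Prop := ∃ A₀ : ℕ, ∀ A, A₀ ≤ A →
  ∀ M, A + t + m ≤ M → ∀ B ∈ Lv (M + 1) (m + t), Bl m (M + 1) B →
    Vh M B + marg ≤ 1 - rw1 M m t A g1 g2 B - rw2 M m t A g1 g2 B

/-- **BD** (helper5): the boundary defect, shapes beyond the wall. -/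
def Stmt_BD (m t : ℕ) (g1 g2 : ℝ) (W : ℕ → ℕ → Finset ℕ → ℝ) : Prop := ∃ A₀ : ℕ, ∀ A, A₀ ≤ A →
  ∀ M, A + t + m ≤ M → ∀ i, 1 ≤ i → i ≤ t → ∀ C ∈ Lv M i,
    |rw2 M m t A g1 g2 (insert (m + t + M - i) C)| * ex (insert (m + t + M - i) C) ≤ W M i C

/-- **WPOS**: positivity of the majorant, and its value at the vacuum. -/
def Stmt_WPOS (t : ℕ) (W : ℕ → ℕ → Finset ℕ → ℝ) : Prop := ∃ M₀ : ℕ, ∀ M, M₀ ≤ M →
  (∀ i, 1 ≤ i → i ≤ t → ∀ C ∈ Lv M i, 0 < W M i C) ∧ W M 0 (range M) = W0 M t (W M)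

/-- **NU** (helper56, helper62): the contraction. -/
def Stmt_NU (m t : ℕ) (ν : ℝ) (W : ℕ → ℕ → Finset ℕ → ℝ) : Prop := ∃ M₀ : ℕ, ∀ M, M₀ ≤ M →
  ∀ i, 1 ≤ i → i ≤ t → ∀ C ∈ Lv M i,
    ∑ x ∈ C, YR t (W M) (m + t + M - x) ((insert (m + t + M - i) C).erase x) ≤ ν * W M i C

/-- **VH** (helper56, helper62): the bound of the lift below the wall. -/
def Stmt_VH (m t : ℕ) (ν Vm : ℝ) (W : ℕ → ℕ → Finset ℕ → ℝ) (Vh : ℕ → Finset ℕ → ℝ) : Prop :=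
  ∃ M₀ : ℕ, ∀ M, M₀ ≤ M → ∀ B ∈ Lv (M + 1) (m + t), Bl m (M + 1) B →
    Vh M B ≤ Vm ∧ ∑ x ∈ B, YR t (W M) (m + t + M - x) (B.erase x) ≤ (1 - ν) * Vh M B * ex B

/-- **THR**: the assembly. -/
def Stmt_THR : Prop := ∀ (m : ℕ) (g1 g2 ν marg Vm : ℝ) (W : ℕ → ℕ → Finset ℕ → ℝ)
  (Vh : ℕ → Finset ℕ → ℝ), 4 ≤ m → 0 ≤ ν → ν < 1 → 0 < marg → 0 ≤ Vm →
  Stmt_WPOS (m - 3) W → Stmt_TAIL m (m - 3) g1 g2 → Stmt_U0 m (m - 3) g1 g2 marg Vh →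
  Stmt_BD m (m - 3) g1 g2 W → Stmt_NU m (m - 3) ν W → Stmt_VH m (m - 3) ν Vm W Vh → Threshold m

end Pool.JM
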