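import Pool.Agent.Work.MP_46fa68_20.CL
import Pool.Agent.Work.MP_46fa68_56.CB

/-!
# MP_46fa68_co: the threshold for all `m ≥ 21`
-/

set_option autoImplicit false

namespace Pool.JM

/-- **The threshold for all `m ≥ 21`.** -/
theorem threshold_ge {m : ℕ} (hm : 21 ≤ m) : Threshold m := threshold_CB hm (CB hm)

end Pool.JM
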