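import Pool.Agent.Work.MP_46fa68_20.Thr
import Pool.Agent.Work.MP_46fa68_h5.Bridge
import Pool.Agent.Work.MP_46fa68_81.C56

/-!
# MP_46fa68_co: the threshold for `m ≥ 21` from the class `(-1, 5)`
-/

set_option autoImplicit false

open Finset

namespace Pool.JM

theorem CL56 {m : ℕ} (hm : 21 ≤ m) : Stmt_CL m 5 6 (3 / 25) := by
  intro A M hA hM B hB hT hx _
  have := C56 (A := A) hm (by omega) hB hT (mem_of_mem_erase (sb_mem hB hM)) hx
  linarith

theorem CL46 {m : ℕ} (hm : 21 ≤ m) : Stmt_CL m 4 6 (3 / 25) := by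
  intro A M hA hM B hB hT hx _
  have := C46 (A := A) hm (by omega) hB hT (mem_of_mem_erase (sb_mem hB hM)) hx
  linarith

theorem CL78 {m : ℕ} (hm : 21 ≤ m) : Stmt_CL m 7 8 (3 / 25) := by
  intro A M hA hM B hB hT hx _
  have := C78 (A := A) hm hB hT (mem_of_mem_erase (sb_mem hB hM)) hx
  linarith

theorem threshold_CB {m : ℕ} (hm : 21 ≤ m) (h : Stmt_CB m) : Threshold m :=
  threshold_near hm (NEARU_of hm (BR hm) (CL45 hm) (CL46 hm) (CL56 hm) (CL67 hm) (CL78 hm) (CL89 hm))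
    (NEARB_of hm (BR hm) h)

end Pool.JM
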