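import Pool.Agent.Work.MP_46fa68_T.Num
import Pool.Agent.Work.MP_46fa68_h4.Safe

set_option autoImplicit false

namespace Pool.Agent.Work.MP_46fa68_20.ExplicitRange

/-- If `n ≥ t + 900` and `(n - 2 t)² ≥ 144 (n - t)`, or if `n ≥ 10 t` and `n ≥ 350`, then the largest
`t`-intersecting families of permutations of `n` points are exactly the `t`-stars. -/
theorem result :
    ∀ n t : ℕ, 1 ≤ t → 2 * t < n →
      ((t + 900 ≤ n ∧ 144 * (n - t) ≤ (n - 2 * t) ^ 2) ∨ (10 * t ≤ n ∧ 350 ≤ n)) →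
      ∀ F : Finset (Equiv.Perm (Fin n)),
        ((∀ σ ∈ F, ∀ τ ∈ F, t ≤ (Finset.univ.filter (fun i : Fin n => σ i = τ i)).card) ∧
          (∀ G : Finset (Equiv.Perm (Fin n)),
            (∀ σ ∈ G, ∀ τ ∈ G, t ≤ (Finset.univ.filter (fun i : Fin n => σ i = τ i)).card) →
              G.card ≤ F.card)) ↔
        ∃ a b : Fin t → Fin n, Function.Injective a ∧ Function.Injective b ∧
          F = Finset.univ.filter (fun σ : Equiv.Perm (Fin n) => ∀ k : Fin t, σ (a k) = b k) := by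
  intro n t ht hn h F
  obtain ⟨m, rfl⟩ : ∃ m, n = m + t := ⟨n - t, by omega⟩
  rcases h with ⟨h1, h2⟩ | ⟨h1, h2⟩
  · rw [Nat.add_sub_cancel, show m + t - 2 * t = m - t by omega, pow_two] at h2
    refine Pool.JM.iff_of (by omega) (fun A hA => ?_) (fun A hA hc => ?_) F
    · rw [Nat.add_sub_cancel]
      exact (Pool.JM.safe (by omega) (by omega) h2 A hA).1
    · rw [Nat.add_sub_cancel] at hc ⊢
      exact (Pool.JM.safe (by omega) (by omega) h2 A hA).2 hc
  · obtain ⟨u, h3, h4⟩ := Pool.JM.exists_pos_ten (m := m) (t := t) (K := m + t + 1) ht (by omega) h2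
      (by omega)
    exact Pool.JM.iff_of_top (by omega) (by omega) u h3 h4 F

end Pool.Agent.Work.MP_46fa68_20.ExplicitRange
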