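import Pool.Agent.Work.MP_46fa68_20.RW
import Pool.Agent.Work.MP_46fa68_31.NUW
import Pool.Agent.Work.MP_46fa68_56.Final56

/-!
# MP_46fa68_co: the threshold for `m ≥ 21` from U0 and BD
-/

set_option autoImplicit false

open Finset

namespace Pool.JM

theorem threshold_big {m : ℕ} (hm : 21 ≤ m) {marg : ℝ} (hmarg : 0 < marg)
    (hU0 : U0 m marg (LR.VhB m)) (hBD : BD m (LR.WR m)) : Threshold m :=
  threshold_of (by omega) (by norm_num : (0 : ℝ) ≤ 1 / 12) (by norm_num) hmarg
    (by norm_num : (0 : ℝ) ≤ 2) (WPOS_WR (by omega)) hU0 hBD (NU_WR (by omega))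
    (LR.VH_final (by omega))

end Pool.JM
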