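import Pool.Agent.Work.MP_46fa68_20.Tail
import Pool.Agent.Work.MP_46fa68_h4.Kex

/-!
# MP_46fa68_co: the final interface, in the names of `Kth.lean`

`t = m - 3`, `M` inner beads, `K = M + 1`, wall `M0 = M + m`, `M = A + (m - 3) + m`.
-/

set_option autoImplicit false

open Finset Filter Topology

namespace Pool.JM

/-- **U0** below the wall, in the names of `Kth.lean` -/
def U0 (m : ℕ) (marg : ℝ) (Vh : ℕ → Finset ℕ → ℝ) : Prop := ∃ A₀ : ℕ, ∀ A, A₀ ≤ A →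
  ∀ M, M = A + (m - 3) + m → ∀ B ∈ Lv (M + 1) (m + (m - 3)), Bl m (M + 1) B →
    Vh M B + marg ≤ 1 - Cr m A (M + m) B (tb B) - ∑ x ∈ B.erase (tb B), Cr m A (M + m) B x

/-- **BD** beyond the wall, in the names of `Kth.lean` -/
def BD (m : ℕ) (W : ℕ → ℕ → Finset ℕ → ℝ) : Prop := ∃ A₀ : ℕ, ∀ A, A₀ ≤ A →
  ∀ M, M = A + (m - 3) + m → ∀ i, 1 ≤ i → i ≤ m - 3 → ∀ C ∈ Lv M i,
    |∑ x ∈ C, Cr m A (M + m) (insert (m + (m - 3) + M - i) C) x| *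
      ex (insert (m + (m - 3) + M - i) C) ≤ W M i C

theorem Cond_gm {m : ℕ} (hm : 16 ≤ m) : Cond m (m - 3) (g1m m) (g2m m) := by
  have h := cond hm
  unfold Cond
  rw [show m - 3 + 3 = m by omega]
  have hm1 : (0 : ℝ) < (m : ℝ) - 1 := by
    have : (16 : ℝ) ≤ m := by exact_mod_cast hm
    linarith
  have e : ∀ p ∈ range m, vv (m - 3) (g1m m) (g2m m) p *
      ((((m : ℝ) - 1) + p) / ((m : ℝ) - 1) * ((m.factorial : ℝ) / (m + p).factorial)) =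
      ((m.factorial : ℝ) / ((m : ℝ) - 1)) * (vm m p * wf (m - 1 + p)) := by
    intro p _
    unfold vm wf
    rw [show m - 1 + p + 1 = m + p by omega]
    have g : (0 : ℝ) < ((m + p).factorial : ℝ) := by exact_mod_cast Nat.factorial_pos _
    rw [Nat.cast_add, Nat.cast_sub (by omega : 1 ≤ m), Nat.cast_one]
    field_simp
  rw [sum_congr rfl e, ← mul_sum, h, mul_zero]

theorem kz_kth {M m A : ℕ} : kz M m (m - 3) A (g1m m) (g2m m) = kth m A (M + m) := rfl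

theorem sum_kz {M m A x : ℕ} {B : Finset ℕ} :
    ∑ p ∈ range (A + 1), kz M m (m - 3) A (g1m m) (g2m m) x p * Rr B x p = Cr m A (M + m) B x := by
  rw [kz_kth]
  unfold Cr kth cut
  refine sum_congr rfl fun p hp => ?_
  rw [if_pos (by have := mem_range.1 hp; omega)]

theorem rw1_eq {M m A : ℕ} {B : Finset ℕ} :
    rw1 M m (m - 3) A (g1m m) (g2m m) B = Cr m A (M + m) B (tb B) := sum_kz

theorem rw2_eq {M m A : ℕ} {B : Finset ℕ} :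
    rw2 M m (m - 3) A (g1m m) (g2m m) B = ∑ x ∈ B.erase (tb B), Cr m A (M + m) B x :=
  sum_congr rfl fun _ _ => sum_kz

/-- **The assembly with `M = A + t + m`.** -/
theorem threshold_core {m : ℕ} (g1 g2 : ℝ) {ν marg Vm : ℝ} {W : ℕ → ℕ → Finset ℕ → ℝ}
    {Vh : ℕ → Finset ℕ → ℝ} (hm : 4 ≤ m) (hν0 : 0 ≤ ν) (hν1 : ν < 1) (hmarg : 0 < marg)
    (hVm : 0 ≤ Vm) (hWP : Stmt_WPOS (m - 3) W) (hTAIL : Stmt_TAIL m (m - 3) g1 g2)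
    (hU0 : ∃ A₀ : ℕ, ∀ A, A₀ ≤ A → ∀ M, M = A + (m - 3) + m →
      ∀ B ∈ Lv (M + 1) (m + (m - 3)), Bl m (M + 1) B →
        Vh M B + marg ≤ 1 - rw1 M m (m - 3) A g1 g2 B - rw2 M m (m - 3) A g1 g2 B)
    (hBD : ∃ A₀ : ℕ, ∀ A, A₀ ≤ A → ∀ M, M = A + (m - 3) + m →
      ∀ i, 1 ≤ i → i ≤ m - 3 → ∀ C ∈ Lv M i,
        |rw2 M m (m - 3) A g1 g2 (insert (m + (m - 3) + M - i) C)| *
          ex (insert (m + (m - 3) + M - i) C) ≤ W M i C)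
    (hNU : Stmt_NU m (m - 3) ν W) (hVH : Stmt_VH m (m - 3) ν Vm W Vh) : Threshold m := by
  -- a majorant which is trivial for the other `M`
  classical
  obtain ⟨t, ht⟩ : ∃ t, t = m - 3 := ⟨_, rfl⟩
  rw [← ht] at hWP hTAIL hU0 hBD hNU hVH
  obtain ⟨Wt, hWt⟩ : ∃ Wt : ℝ, Wt = 1 + (((m + t : ℕ) : ℝ) - 1) / ((m : ℝ) - 1) := ⟨_, rfl⟩
  obtain ⟨Ct, hCt⟩ : ∃ Ct : ℝ, Ct = (m + t).choose t * Wt ^ t * (1 + Wt) ^ m := ⟨_, rfl⟩
  have hWt0 : 0 ≤ Wt := by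
    rw [hWt]
    have h1 : (1 : ℝ) ≤ m := by exact_mod_cast (by omega : 1 ≤ m)
    have h2 : (1 : ℝ) ≤ ((m + t : ℕ) : ℝ) := by exact_mod_cast (by omega : 1 ≤ m + t)
    have : 0 ≤ (((m + t : ℕ) : ℝ) - 1) / ((m : ℝ) - 1) := div_nonneg (by linarith) (by linarith)
    linarith
  have hCt0 : 0 ≤ Ct := by
    rw [hCt]
    positivity
  obtain ⟨ε, hε⟩ : ∃ ε : ℝ, ε = marg / (3 * (Ct + 1)) := ⟨_, rfl⟩
  have hε0 : 0 < ε := by
    rw [hε]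
    positivity
  obtain ⟨η, hη⟩ : ∃ η : ℝ, η = marg / (3 * (Vm + 1)) := ⟨_, rfl⟩
  have hη0 : 0 < η := by
    rw [hη]
    positivity
  obtain ⟨A1, hA1⟩ := hTAIL ε hε0
  obtain ⟨A2, hA2⟩ := hU0
  obtain ⟨A3, hA3⟩ := hBD
  obtain ⟨M1, hM1⟩ := hWP
  obtain ⟨M2, hM2⟩ := hNU
  obtain ⟨M3, hM3⟩ := hVH
  obtain ⟨M4, hM4⟩ := eventually_q (m + t) t hν0 hν1 hη0
  obtain ⟨A, hA⟩ : ∃ A, A = A1 + A2 + A3 + M1 + M2 + M3 + M4 + 1 := ⟨_, rfl⟩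
  obtain ⟨M, hM⟩ : ∃ M, M = A + t + m := ⟨_, rfl⟩
  have hAM : A + t + m ≤ M := by omega
  have hAM : A + t + m ≤ M := by omega
  obtain ⟨hW1, hW2⟩ := hM1 M (by omega)
  obtain ⟨hq1, hq2⟩ := hM4 M (by omega) _ rfl
  exact thr_fixed hm ht hWt hCt hCt0 hε hε0 hη hη0 hν0 hν1 hmarg hVm (by omega) hAM rfl hq1 hq2
    hW1 hW2 (hA1 A (by omega) M hAM) (hA2 A (by omega) M hM) (hA3 A (by omega) M hM)
    (hM2 M (by omega)) (hM3 M (by omega))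

/-- **The final interface.** -/
theorem threshold_of {m : ℕ} {ν marg Vm : ℝ} {W : ℕ → ℕ → Finset ℕ → ℝ}
    {Vh : ℕ → Finset ℕ → ℝ} (hm : 16 ≤ m) (hν0 : 0 ≤ ν) (hν1 : ν < 1) (hmarg : 0 < marg)
    (hVm : 0 ≤ Vm) (hWP : Stmt_WPOS (m - 3) W) (hU0 : U0 m marg Vh) (hBD : BD m W)
    (hNU : Stmt_NU m (m - 3) ν W) (hVH : Stmt_VH m (m - 3) ν Vm W Vh) : Threshold m := by
  refine threshold_core (g1m m) (g2m m) (by omega) hν0 hν1 hmarg hVm hWP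
    (blk_TAIL (by omega) (Cond_gm hm)) ?_ ?_ hNU hVH
  · obtain ⟨A₀, hA₀⟩ := hU0
    refine ⟨A₀, fun A hA M hM B hB hb => ?_⟩
    rw [rw1_eq, rw2_eq]
    exact hA₀ A hA M hM B hB hb
  · obtain ⟨A₀, hA₀⟩ := hBD
    refine ⟨A₀, fun A hA M hM i hi1 hi2 C hC => ?_⟩
    have hlt : ∀ y ∈ C, y < m + (m - 3) + M - i := by
      intro y hy
      have := (Lv_spec hC).2.2.1 y hy
      omega
    rw [rw2_eq, tb_insert hlt, erase_insert fun h => lt_irrefl _ (hlt _ h)]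
    exact hA₀ A hA M hM i hi1 hi2 C hC

end Pool.JM
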