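import Pool.Agent.Work.MP_46fa68_20.Glue

/-!
# MP_46fa68_co: `ex (insert X C)` against `ex C`, with the first row of `C`
-/

set_option autoImplicit false

open Finset

namespace Pool.JM

theorem prod_sub_le (X : ℕ) : ∀ (k : ℕ) (D : Finset ℕ), D.card = k → (∀ y ∈ D, y ≤ X) →
    ∏ y ∈ D, ((X : ℝ) - y) ≤ ∏ y ∈ range k, ((X : ℝ) - y)
  | 0, D, hc, _ => by
    rw [card_eq_zero] at hc
    subst hc
    simp
  | k + 1, D, hc, hX => by
    have hne : D.Nonempty := card_pos.1 (by omega)
    obtain ⟨x, E, rfl, h⟩ := exists_top hne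
    have hxE : x ∉ E := fun hx => lt_irrefl _ (h x hx)
    have hE : E.card = k := by
      rw [card_insert_of_notMem hxE] at hc
      omega
    have hkx : k ≤ x := by
      have h1 : E ⊆ range x := fun y hy => mem_range.2 (h y hy)
      have := card_le_card h1
      rwa [card_range, hE] at this
    have hxX : x ≤ X := hX x (mem_insert_self _ _)
    rw [prod_insert hxE, prod_range_succ, mul_comm]
    have h1 := prod_sub_le X k E hE fun y hy => hX y (mem_insert_of_mem hy)
    have h2 : (k : ℝ) ≤ x := by exact_mod_cast hkx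
    have h3 : (x : ℝ) ≤ X := by exact_mod_cast hxX
    refine mul_le_mul h1 (by linarith) (by linarith) (prod_nonneg fun y hy => ?_)
    have h4 : (y : ℝ) ≤ k := by exact_mod_cast (mem_range.1 hy).le
    linarith

/-- **`ex (insert X C)`**, `C_1 = tb C + 1 - M` the first row of `C`. -/
theorem ex_insert_le {M L c : ℕ} (hM : 0 < M) {C : Finset ℕ} (hC : C.card = M)
    (hlt : ∀ y ∈ C, y < M + L) (hc : tb C + 1 = M + c) :
    ex (insert (M + L) C) ≤ ex C / (L.factorial : ℝ) * (((L : ℝ) + 1 - c) / ((L : ℝ) + 1)) := by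
  have hnot : M + L ∉ C := fun h => lt_irrefl _ (hlt _ h)
  have hne : C.Nonempty := card_pos.1 (by omega)
  have ht := tb_mem hne
  rw [ex_insert hnot]
  have h1 : ∏ y ∈ C, |((M + L : ℕ) : ℝ) - y| = ∏ y ∈ C, (((M + L : ℕ) : ℝ) - y) := by
    refine prod_congr rfl fun y hy => abs_of_nonneg ?_
    have : (y : ℝ) ≤ ((M + L : ℕ) : ℝ) := by exact_mod_cast (hlt y hy).le
    linarith
  rw [h1, ← mul_prod_erase C _ ht]
  obtain ⟨k, rfl⟩ : ∃ k, M = k + 1 := ⟨M - 1, by omega⟩
  have h2 := prod_sub_le (k + 1 + L) k (C.erase (tb C)) (by rw [card_erase_of_mem ht, hC]; rfl)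
    fun y hy => (hlt y (mem_of_mem_erase hy)).le
  have h3 : ∏ y ∈ range k, (((k + 1 + L : ℕ) : ℝ) - y) =
      ((k + 1 + L).factorial : ℝ) / ((L + 1).factorial : ℝ) := by
    have h4 : ∏ y ∈ range k, (((k + 1 + L : ℕ) : ℝ) - y) = ((k + 1 + L).descFactorial k : ℝ) := by
      rw [Nat.descFactorial_eq_prod_range]
      push_cast
      refine prod_congr rfl fun y hy => ?_
      have := mem_range.1 hy
      rw [Nat.cast_sub (by omega)]
      push_cast
      ring
    have h5 := Nat.factorial_mul_descFactorial (show k ≤ k + 1 + L by omega)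
    rw [show k + 1 + L - k = L + 1 by omega] at h5
    have h6 : ((L + 1).factorial : ℝ) ≠ 0 := by exact_mod_cast (L + 1).factorial_ne_zero
    rw [h4, eq_div_iff h6, mul_comm]
    exact_mod_cast h5
  rw [h3] at h2
  have h7 : ((k + 1 + L : ℕ) : ℝ) - (tb C : ℝ) = (L : ℝ) + 1 - c := by
    have : ((tb C + 1 : ℕ) : ℝ) = ((k + 1 + c : ℕ) : ℝ) := by rw [hc]
    push_cast at this ⊢
    linarith
  have h8 : (0 : ℝ) ≤ (L : ℝ) + 1 - c := by
    rw [← h7]
    have : (tb C : ℝ) ≤ ((k + 1 + L : ℕ) : ℝ) := by exact_mod_cast (hlt _ ht).le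
    linarith
  rw [h7]
  have f1 : (0 : ℝ) < ((k + 1 + L).factorial : ℝ) := by exact_mod_cast Nat.factorial_pos _
  have f2 : (0 : ℝ) < (L.factorial : ℝ) := by exact_mod_cast Nat.factorial_pos _
  have f3 : ((L + 1).factorial : ℝ) = ((L : ℝ) + 1) * L.factorial := by
    rw [Nat.factorial_succ]
    push_cast
    ring
  rw [f3] at h2
  have hex := (ex_pos C).le
  calc ex C * (((L : ℝ) + 1 - c) * ∏ y ∈ C.erase (tb C), (((k + 1 + L : ℕ) : ℝ) - y)) /
        ((k + 1 + L).factorial : ℝ)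
      ≤ ex C * (((L : ℝ) + 1 - c) * (((k + 1 + L).factorial : ℝ) / (((L : ℝ) + 1) * L.factorial))) /
        ((k + 1 + L).factorial : ℝ) := by
        refine div_le_div_of_nonneg_right ?_ f1.le
        exact mul_le_mul_of_nonneg_left (mul_le_mul_of_nonneg_left h2 h8) hex
    _ = _ := by
        have : (L : ℝ) + 1 ≠ 0 := by positivity
        field_simp

end Pool.JM
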