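import Pool.Agent.Work.MP_46fa68_20.Ins
import Pool.Agent.Work.MP_46fa68_56.RDefs

/-!
# MP_46fa68_co: the boundary bound (block RW), and positivity of the majorant
-/

set_option autoImplicit false

open Finset

namespace Pool.JM.LR

theorem blk_RW : Stmt_RW := by
  intro m M i hm hM hi1 hi2 C hC
  have hsp := Lv_spec hC
  have hMpos : 0 < M := by omega
  have hne : C.Nonempty := card_pos.1 (by rw [hsp.1]; exact hMpos)
  have htb := tb_mem hne
  have htlt := hsp.2.2.1 _ htb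
  -- the first row
  have hge : M ≤ tb C := by
    by_contra hcon
    push Not at hcon
    have h1 : C ⊆ range M := fun y hy => by
      rw [mem_range]
      have : y ≤ tb C := Finset.le_sup (f := id) hy
      omega
    have h2 : C = range M := eq_of_subset_of_card_le h1 (by rw [card_range, hsp.1])
    have h3 := (mem_Lv_iff.1 hC).2
    rw [h2] at h3
    omega
  obtain ⟨c, hc⟩ : ∃ c, c = tb C + 1 - M := ⟨_, rfl⟩
  have hc' : tb C + 1 = M + c := by omega
  have hc1 : 1 ≤ c := by omega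
  have hci : c ≤ i := by omega
  have hlt : ∀ y ∈ C, y < M + (m + (m - 3) - i) := by
    intro y hy
    have := hsp.2.2.1 y hy
    omega
  have hX : m + (m - 3) + M - i = M + (m + (m - 3) - i) := by omega
  obtain ⟨L, hL⟩ : ∃ L, L = m + (m - 3) - i := ⟨_, rfl⟩
  rw [hX, ← hL]
  rw [← hL] at hlt
  have h1 := ex_insert_le hMpos hsp.1 hlt hc'
  obtain ⟨j, hj⟩ : ∃ j, j = m - 3 - c := ⟨_, rfl⟩
  have hWR : WR m M i C = ww j * ex C / ((m : ℝ) * (L.factorial : ℝ)) := by
    unfold WR WB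
    rw [if_neg (by omega), ← hL, ← hc, ← hj]
  rw [hWR, ← hc, ← hj]
  have hcj : c + j + 3 = m := by omega
  have hLj : L ≤ m + j := by omega
  have hLm : m ≤ L := by omega
  have hmR : (0 : ℝ) < m := by exact_mod_cast (by omega : 0 < m)
  have hLf : (0 : ℝ) < (L.factorial : ℝ) := by exact_mod_cast L.factorial_pos
  have hex := ex_pos C
  -- the factor
  have hcR : (c : ℝ) = (m : ℝ) - j - 3 := by
    have : ((c + j + 3 : ℕ) : ℝ) = (m : ℝ) := by rw [hcj]
    push_cast at this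
    linarith
  have hj0 : (0 : ℝ) ≤ j := Nat.cast_nonneg j
  have hfac : ((L : ℝ) + 1 - c) / ((L : ℝ) + 1) ≤ (2 * j + 4) / m := by
    have hL1 : (0 : ℝ) < (L : ℝ) + 1 := by positivity
    have h3 : (L : ℝ) ≤ (m : ℝ) + j := by exact_mod_cast hLj
    have h4 : (m : ℝ) ≤ L := by exact_mod_cast hLm
    obtain ⟨s, hs⟩ : ∃ s : ℝ, s = L - m := ⟨_, rfl⟩
    have hs1 : (L : ℝ) = m + s := by linarith
    rw [div_le_div_iff₀ hL1 hmR, hcR, hs1]
    have h5 : 0 ≤ (j - s) * (m : ℝ) := mul_nonneg (by linarith) hmR.le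
    have h6 : 0 ≤ (2 * (j : ℝ) + 4) * (s + 1) := mul_nonneg (by linarith) (by linarith)
    linarith
  have h2 : ex (insert (M + L) C) ≤ ex C / (L.factorial : ℝ) * ((2 * j + 4) / m) :=
    h1.trans (mul_le_mul_of_nonneg_left hfac (by positivity))
  have hw : (if c = m - 3 then (7 / 50 : ℝ) else 3 / 50 * (3 / 4 : ℝ) ^ j) * (2 * j + 4) ≤ ww j := by
    unfold ww
    by_cases h : c = m - 3
    · have hj' : j = 0 := by omega
      rw [if_pos h, if_pos hj', hj']
      norm_num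
    · have hj' : j ≠ 0 := by omega
      rw [if_neg h, if_neg hj']
      refine le_of_eq ?_
      ring
  have hδ : 0 ≤ (if c = m - 3 then (7 / 50 : ℝ) else 3 / 50 * (3 / 4 : ℝ) ^ j) := by
    split_ifs <;> positivity
  calc (if c = m - 3 then (7 / 50 : ℝ) else 3 / 50 * (3 / 4 : ℝ) ^ j) * ex (insert (M + L) C) ≤
      (if c = m - 3 then (7 / 50 : ℝ) else 3 / 50 * (3 / 4 : ℝ) ^ j) *
        (ex C / (L.factorial : ℝ) * ((2 * j + 4) / m)) := mul_le_mul_of_nonneg_left h2 hδ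
    _ = ((if c = m - 3 then (7 / 50 : ℝ) else 3 / 50 * (3 / 4 : ℝ) ^ j) * (2 * j + 4)) *
        (ex C / ((m : ℝ) * (L.factorial : ℝ))) := by
        field_simp
    _ ≤ ww j * (ex C / ((m : ℝ) * (L.factorial : ℝ))) :=
        mul_le_mul_of_nonneg_right hw (by positivity)
    _ = ww j * ex C / ((m : ℝ) * (L.factorial : ℝ)) := by ring

theorem ww_pos' (j : ℕ) : 0 < ww j := by
  unfold ww
  split_ifs
  · norm_num
  · positivity

end Pool.JM.LR

namespace Pool.JM

/-- **WPOS** -/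
theorem WPOS_WR {m : ℕ} (hm : 4 ≤ m) : Stmt_WPOS (m - 3) (LR.WR m) := by
  refine ⟨0, fun M _ => ⟨fun i hi1 _ C _ => ?_, ?_⟩⟩
  · unfold LR.WR LR.WB
    rw [if_neg (by omega)]
    have h1 := LR.ww_pos' (m - 3 - (tb C + 1 - M))
    have h2 := ex_pos C
    have h3 : (0 : ℝ) < m := by exact_mod_cast (by omega : 0 < m)
    positivity
  · have h1 : W0 M (m - 3) (LR.WR m M) = W0 M (m - 3) (LR.WB m M) := by
      unfold W0
      refine sum_congr rfl fun j _ => ?_
      congr 2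
    rw [h1]
    unfold LR.WR
    rw [if_pos rfl]

/-- **BD from the bound of the rows `≥ 2`.** -/
theorem BD_of_delta {m : ℕ} (hm : 16 ≤ m) (h : ∃ A₀ : ℕ, ∀ A, A₀ ≤ A →
    ∀ M, M = A + (m - 3) + m → ∀ i, 1 ≤ i → i ≤ m - 3 → ∀ C ∈ Lv M i,
    |∑ x ∈ C, Cr m A (M + m) (insert (m + (m - 3) + M - i) C) x| ≤
      (if tb C + 1 - M = m - 3 then 7 / 50 else
        3 / 50 * (3 / 4 : ℝ) ^ (m - 3 - (tb C + 1 - M)))) : BD m (LR.WR m) := by
  obtain ⟨A₀, hA₀⟩ := h
  refine ⟨A₀ + m, fun A hA M hM i hi1 hi2 C hC => ?_⟩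
  have h1 := hA₀ A (by omega) M hM i hi1 hi2 C hC
  exact (mul_le_mul_of_nonneg_right h1 (ex_pos _).le).trans
    (LR.blk_RW m M i hm (by omega) hi1 hi2 C hC)

end Pool.JM
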