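import Pool.Agent.Work.MP_46fa68_20.Asm

/-!
# MP_46fa68_co: the truncation error
-/

set_option autoImplicit false

open Finset Filter Topology

namespace Pool.JM

/-- the condition at the shape `(m - 1, 1)` -/
def Cond (m t : ℕ) (g1 g2 : ℝ) : Prop :=
  ∑ p ∈ range (t + 3), vv t g1 g2 p *
    ((((m : ℝ) - 1) + p) / ((m : ℝ) - 1) * ((m.factorial : ℝ) / (m + p).factorial)) = 0

theorem abs_bi_le (t p : ℕ) : |bi t p| ≤ 2 ^ (t + p) := by
  unfold bi
  rw [abs_mul, abs_pow, abs_neg, abs_one, one_pow, one_mul, abs_of_nonneg (Nat.cast_nonneg _)]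
  have h1 : (t + p - 1).choose p ≤ 2 ^ (t + p) :=
    (Nat.choose_le_two_pow _ _).trans (Nat.pow_le_pow_right (by norm_num) (by omega))
  exact_mod_cast h1

theorem abs_kz_le {M m t A : ℕ} {g1 g2 V : ℝ} (hV0 : 0 ≤ V) (hV : ∀ p, |vv t g1 g2 p| ≤ V)
    (x p : ℕ) : |kz M m t A g1 g2 x p| ≤ 2 ^ (t + 3 * A) * (1 + V) := by
  unfold kz cut
  split_ifs with hp
  · unfold kf
    refine (abs_add_le _ _).trans ?_
    have h1 : |kc (M + m) (bi t) x p| ≤ 2 ^ (t + 3 * A) := by
      unfold kc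
      rw [abs_mul]
      have h2 : |kp (M + m) p x| ≤ 2 ^ (2 * A) := by
        have h3 : (1 : ℝ) ≤ 2 ^ (2 * A) := one_le_pow₀ (by norm_num)
        unfold kp
        split_ifs
        · rw [abs_one]; exact h3
        · rw [abs_zero]; positivity
        · rw [abs_mul, abs_pow, abs_neg, abs_one, one_pow, one_mul,
            abs_of_nonneg (Nat.cast_nonneg _)]
          have h4 : (p - 1).choose (M + m - x - 1) ≤ 2 ^ (2 * A) :=
            (Nat.choose_le_two_pow _ _).trans (Nat.pow_le_pow_right (by norm_num) (by omega))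
          exact_mod_cast h4
        · rw [abs_zero]; positivity
      have h5 : |bi t p| ≤ 2 ^ (t + A) := (abs_bi_le t p).trans
        (pow_le_pow_right₀ (by norm_num) (by omega))
      calc |bi t p| * |kp (M + m) p x| ≤ 2 ^ (t + A) * 2 ^ (2 * A) :=
            mul_le_mul h5 h2 (abs_nonneg _) (by positivity)
        _ = 2 ^ (t + 3 * A) := by rw [← pow_add]; congr 1; omega
    have h6 : |kx (M + m) (vv t g1 g2) (bi t) x p| ≤ 2 ^ (t + 3 * A) * V := by
      unfold kx
      split_ifs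
      · refine (abs_sum_le_sum_abs _ _).trans ?_
        have h7 : ∀ a ∈ range (p + 1), |bi t a * ((-1) ^ (a + (M + m - 1 - x)) *
            (a.choose (M + m - 1 - x) : ℝ)) * vv t g1 g2 (p - a)| ≤ 2 ^ (t + 2 * A) * V := by
          intro a ha
          have ha' : a ≤ A := by
            have := mem_range.1 ha
            omega
          rw [abs_mul, abs_mul, abs_mul, abs_pow, abs_neg, abs_one, one_pow, one_mul,
            abs_of_nonneg (a := ((a.choose (M + m - 1 - x) : ℕ) : ℝ)) (Nat.cast_nonneg _)]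
          have h8 : |bi t a| ≤ 2 ^ (t + A) := (abs_bi_le t a).trans
            (pow_le_pow_right₀ (by norm_num) (by omega))
          have h9 : ((a.choose (M + m - 1 - x) : ℕ) : ℝ) ≤ 2 ^ A := by
            have h4 : a.choose (M + m - 1 - x) ≤ 2 ^ A :=
              (Nat.choose_le_two_pow _ _).trans (Nat.pow_le_pow_right (by norm_num) (by omega))
            exact_mod_cast h4
          calc |bi t a| * ((a.choose (M + m - 1 - x) : ℕ) : ℝ) * |vv t g1 g2 (p - a)| ≤
              2 ^ (t + A) * 2 ^ A * V :=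
                mul_le_mul (mul_le_mul h8 h9 (Nat.cast_nonneg _) (by positivity)) (hV _)
                  (abs_nonneg _) (by positivity)
            _ = 2 ^ (t + 2 * A) * V := by rw [← pow_add]; congr 2; omega
        refine (sum_le_sum h7).trans ?_
        rw [sum_const, card_range, nsmul_eq_mul]
        have h10 : ((p + 1 : ℕ) : ℝ) ≤ 2 ^ A := by
          have h11 : p + 1 ≤ 2 ^ A := by
            have := Nat.lt_two_pow_self (n := A)
            omega
          exact_mod_cast h11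
        calc ((p + 1 : ℕ) : ℝ) * (2 ^ (t + 2 * A) * V) ≤ 2 ^ A * (2 ^ (t + 2 * A) * V) :=
              mul_le_mul_of_nonneg_right h10 (by positivity)
          _ = 2 ^ (t + 3 * A) * V := by rw [← mul_assoc, ← pow_add]; congr 2; omega
      · rw [abs_zero]; positivity
    linarith
  · rw [abs_zero]
    positivity

/-- the kernel `kf` is exact -/
theorem pk_kz {M m t A : ℕ} (g1 g2 : ℝ) {x p : ℕ} (hM : 0 < M + m) (hx : x < M + m) (hp : p ≤ A) :
    pk^[t] (kz M m t A g1 g2) x p = if x = M + m - 1 then vv t g1 g2 p else 0 := by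
  unfold kz
  rw [pk_cut A _ t x p hp, pkn_kf, psn_bi']
  unfold kf
  rw [kx_dlt _ _ _ _ hM]
  have h1 : kc (M + m) (dlt 0) x p = 0 := by
    unfold kc
    by_cases h0 : p = 0
    · subst h0
      rw [kp_zero, if_neg (by omega), mul_zero]
    · unfold dlt
      rw [if_neg h0, zero_mul]
  rw [h1, zero_add]

theorem tail_main {M m t A : ℕ} {g1 g2 : ℝ} (hm : 2 ≤ m) (hA : t + 2 ≤ A) (hM : A + t + m ≤ M)
    (hc : Cond m t g1 g2) {V : ℝ} (hV0 : 0 ≤ V) (hV : ∀ p, |vv t g1 g2 p| ≤ V)
    {B : Finset ℕ} (hB : B ∈ Lv (M + 1) m) (hb : Bl m (M + 1) B) :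
    |E1 (M + 1) (A + t + 1) (pk^[t] (kz M m t A g1 g2)) B| ≤
      (t * 3 ^ t * 2 ^ (3 * t + 1) * (1 + V)) * ((32 : ℝ) ^ A / A.factorial) := by
  have hsp := mem_Lv_iff.1 hB
  have hlt : ∀ x ∈ B, x < M + m := fun x hx => by
    have := hb x hx
    omega
  rw [E1_eq _ hsp.1]
  set F : ℕ → ℕ → ℝ := fun x p => pk^[t] (kz M m t A g1 g2) x p * Rr B x p with hF
  have hsplit : ∀ x, ∑ p ∈ range (A + t + 1), F x p =
      ∑ p ∈ range (A + 1), F x p + ∑ p ∈ Ico (A + 1) (A + t + 1), F x p := by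
    intro x
    rw [range_eq_Ico, range_eq_Ico]
    exact (sum_Ico_consecutive _ (by omega) (by omega)).symm
  have h0 : ∑ x ∈ B, ∑ p ∈ range (A + 1), F x p = 0 := by
    have h1 : ∀ x ∈ B, ∑ p ∈ range (A + 1), F x p =
        if x = M + m - 1 then ∑ p ∈ range (A + 1), vv t g1 g2 p * Rr B x p else 0 := by
      intro x hx
      split_ifs with h
      · refine sum_congr rfl fun p hp => ?_
        have := mem_range.1 hp
        rw [hF]
        simp only
        rw [pk_kz g1 g2 (by omega) (hlt x hx) (by omega), if_pos h]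
      · refine sum_eq_zero fun p hp => ?_
        have := mem_range.1 hp
        rw [hF]
        simp only
        rw [pk_kz g1 g2 (by omega) (hlt x hx) (by omega), if_neg h, zero_mul]
    rw [sum_congr rfl h1, sum_ite_eq']
    split_ifs with hx
    · have e0 : M + m - 1 = M + (m - 1) := by omega
      rw [e0] at hx ⊢
      have hc' : (B.erase (M + (m - 1))).card = M := by
        rw [card_erase_of_mem hx, hsp.1]
        rfl
      have hs' : ∑ y ∈ B.erase (M + (m - 1)), y = ∑ y ∈ range M, y + 1 := by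
        have e1 := add_sum_erase B (fun z => z) hx
        rw [hsp.2, sum_range_succ] at e1
        omega
      have h2 : ∀ p, Rr B (M + (m - 1)) p = (((m : ℝ) - 1) + p) / ((m : ℝ) - 1) *
          ((m.factorial : ℝ) / (m + p).factorial) := by
        intro p
        rw [Rr_one (by omega) hc' hs' p, Nat.sub_add_cancel (by omega), Nat.cast_sub (by omega),
          Nat.cast_one]
      have h3 : ∑ p ∈ range (A + 1), vv t g1 g2 p * Rr B (M + (m - 1)) p =
          ∑ p ∈ range (t + 3), vv t g1 g2 p * Rr B (M + (m - 1)) p := by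
        symm
        refine sum_subset (fun p hp => mem_range.2 (by have := mem_range.1 hp; omega))
          fun p _ hp => ?_
        rw [mem_range] at hp
        rw [vv_big _ _ (by omega), zero_mul]
      rw [h3, sum_congr rfl fun p _ => by rw [h2 p]]
      exact hc
    · rfl
  rw [sum_congr rfl fun x _ => hsplit x, sum_add_distrib, h0, zero_add]
  -- the junk
  set J : Finset ℕ := B.filter fun x => M + m - 1 - A - t ≤ x with hJ
  have hJsub : J ⊆ Ico (M + m - 1 - A - t) (M + m) := by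
    intro x hx
    rw [hJ, mem_filter] at hx
    rw [mem_Ico]
    exact ⟨hx.2, hlt x hx.1⟩
  have hJc : (J.card : ℝ) ≤ 2 ^ (A + t) * 2 := by
    have h1 := card_le_card hJsub
    rw [Nat.card_Ico] at h1
    have h2 : J.card ≤ 2 ^ (A + t) * 2 := by
      have := Nat.lt_two_pow_self (n := A + t)
      omega
    exact_mod_cast h2
  have hzero : ∀ x ∈ B, x ∉ J → ∑ p ∈ Ico (A + 1) (A + t + 1), F x p = 0 := by
    intro x hx hxJ
    refine sum_eq_zero fun p _ => ?_
    rw [hJ, mem_filter] at hxJ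
    have h1 := (kz_sup (M := M) (m := m) (t := t) (A := A) g1 g2 hM).pkn t
    rw [hF]
    simp only
    rw [h1 x p (Or.inl (by
      by_contra hcon
      exact hxJ ⟨hx, by omega⟩)), zero_mul]
  have hAf : (0 : ℝ) < A.factorial := by exact_mod_cast A.factorial_pos
  have hterm : ∀ x, ∀ p ∈ Ico (A + 1) (A + t + 1), |F x p| ≤
      3 ^ t * (2 ^ (t + 3 * A) * (1 + V)) * (2 ^ (A + t) / A.factorial) := by
    intro x p hp
    rw [mem_Ico] at hp
    rw [hF]
    simp only
    rw [abs_mul]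
    refine mul_le_mul (pk_abs_le (abs_kz_le hV0 hV) t x p) ?_ (abs_nonneg _) (by positivity)
    refine (Rr_le' B x p (by omega)).trans ?_
    have h1 : (A.factorial : ℝ) ≤ p.factorial := by
      exact_mod_cast Nat.factorial_le (by omega : A ≤ p)
    have h2 : (2 : ℝ) ^ (p - 1) ≤ 2 ^ (A + t) := pow_le_pow_right₀ (by norm_num) (by omega)
    exact div_le_div₀ (by positivity) h2 hAf h1
  have hbound : |∑ x ∈ B, ∑ p ∈ Ico (A + 1) (A + t + 1), F x p| ≤
      ∑ x ∈ J, (t : ℝ) * (3 ^ t * (2 ^ (t + 3 * A) * (1 + V)) * (2 ^ (A + t) / A.factorial)) := by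
    rw [← sum_subset (filter_subset _ B : J ⊆ B) fun x hx hxJ => hzero x hx hxJ]
    refine (abs_sum_le_sum_abs _ _).trans (sum_le_sum fun x _ => ?_)
    refine (abs_sum_le_sum_abs _ _).trans ((sum_le_sum (hterm x)).trans (le_of_eq ?_))
    rw [sum_const, Nat.card_Ico, nsmul_eq_mul, show A + t + 1 - (A + 1) = t by omega]
  refine hbound.trans ?_
  rw [sum_const, nsmul_eq_mul]
  have h5 : 0 ≤ (t : ℝ) * (3 ^ t * (2 ^ (t + 3 * A) * (1 + V)) * (2 ^ (A + t) / A.factorial)) := by
    positivity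
  refine (mul_le_mul_of_nonneg_right hJc h5).trans (le_of_eq ?_)
  have e1 : (32 : ℝ) ^ A = 2 ^ (5 * A) := by
    rw [pow_mul]
    norm_num
  have e2 : (2 : ℝ) ^ (A + t) * 2 * 2 ^ (t + 3 * A) * 2 ^ (A + t) = 2 ^ (3 * t + 1) * 2 ^ (5 * A) := by
    rw [← pow_add, mul_assoc, mul_assoc, ← pow_add, ← pow_succ', ← pow_add]
    congr 1
    omega
  rw [e1]
  calc (2 : ℝ) ^ (A + t) * 2 * (t * (3 ^ t * (2 ^ (t + 3 * A) * (1 + V)) *
        (2 ^ (A + t) / A.factorial))) =
      (t * 3 ^ t * (1 + V)) * ((2 : ℝ) ^ (A + t) * 2 * 2 ^ (t + 3 * A) * 2 ^ (A + t)) /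
        A.factorial := by ring
    _ = _ := by rw [e2]; ring

/-- **TAIL**. -/
theorem blk_TAIL {m t : ℕ} {g1 g2 : ℝ} (hm : 2 ≤ m) (hc : Cond m t g1 g2) :
    Stmt_TAIL m t g1 g2 := by
  intro ε hε
  obtain ⟨V, hV⟩ : ∃ V : ℝ, V = ∑ p ∈ range (t + 3), |vv t g1 g2 p| := ⟨_, rfl⟩
  have hV0 : 0 ≤ V := by
    rw [hV]
    exact sum_nonneg fun _ _ => abs_nonneg _
  have hV1 : ∀ p, |vv t g1 g2 p| ≤ V := by
    intro p
    by_cases hp : p < t + 3
    · rw [hV]
      exact single_le_sum (f := fun p => |vv t g1 g2 p|) (fun _ _ => abs_nonneg _)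
        (mem_range.2 hp)
    · rw [vv_big _ _ (by omega), abs_zero]
      exact hV0
  have h1 := FloorSemiring.tendsto_pow_div_factorial_atTop (32 : ℝ)
  have h2 := h1.const_mul (t * 3 ^ t * 2 ^ (3 * t + 1) * (1 + V))
  rw [mul_zero] at h2
  have h3 := h2.eventually_le_const hε
  obtain ⟨A₀, hA₀⟩ := eventually_atTop.1 h3
  refine ⟨A₀ + t + 2, fun A hA M hM B hB hb => ?_⟩
  exact (tail_main hm (by omega) hM hc hV0 hV1 hB hb).trans (hA₀ A (by omega))

end Pool.JM
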