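import Pool.Agent.Work.MP_46fa68_20.Final
import Pool.Agent.Work.MP_46fa68_99.Comb2

/-!
# MP_46fa68_co: the threshold for `m ≥ 21` from the near classes
-/

set_option autoImplicit false

open Finset

namespace Pool.JM

theorem threshold_near {m : ℕ} (hm : 21 ≤ m) (h1 : Stmt_NEARU m) (h2 : Stmt_NEARB m) :
    Threshold m := by
  have hmarg : (0 : ℝ) < 1 / (12 * m) := by
    have : (0 : ℝ) < m := by exact_mod_cast (by omega : 0 < m)
    positivity
  exact threshold_big hm hmarg (U0_of hm (ROW1_all (by omega)) h1) (BD_of hm LR.blk_RW h2)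

end Pool.JM
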